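import Pool.Agent.X62.LC.Prob

/-!
# A chain of complete graphs and one more vertex

The vertices `0, ..., d L d` form a chain of `d L` complete graphs `K_(d + 1)`, the one with index
`j` having the vertices `j d, ..., (j + 1) d`; the last vertex `d L d + 1` is joined to the vertices
`a L d`, `0 ≤ a ≤ d`.
-/

open Finset

namespace Pool.Agent.X62.LC

section cycle

variable {V : Type} {H : SimpleGraph V}

/-- Two vertices of a cycle other than `w` are on the same side of a partition which can only be
crossed at `w`. -/
theorem cut_same {v : V} (c : H.Walk v v) (hc : c.IsCycle) (w : V) (P : V → Prop)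
    (h : ∀ x ∈ c.support, ∀ y ∈ c.support, x ≠ w → y ≠ w → H.Adj x y → (P x ↔ P y)) :
    ∀ x ∈ c.support, ∀ y ∈ c.support, x ≠ w → y ≠ w → (P x ↔ P y) := by
  classical
  by_cases hw : w ∈ c.support
  · set c' := c.rotate w hw with hc'
    have hcyc : c'.IsCycle := (SimpleGraph.Walk.isCycle_rotate hw).2 hc
    have hsup : ∀ x, x ∈ c'.support ↔ x ∈ c.support := fun x =>
      SimpleGraph.Walk.mem_support_rotate_iff c w hw
    have hne : ∀ s, 1 ≤ s → s < c'.length → c'.getVert s ≠ w := by
      intro s h1 h2 h3
      rcases (hcyc.getVert_endpoint_iff h2.le).1 h3 with h4 | h4 <;> omega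
    have hstep : ∀ s, 1 ≤ s → s < c'.length → (P (c'.getVert s) ↔ P (c'.getVert 1)) := by
      intro s h1
      induction s, h1 using Nat.le_induction with
      | base => exact fun _ => Iff.rfl
      | succ s h1 ih =>
        intro h2
        rw [← ih (by omega)]
        apply (h _ _ _ _ (hne s h1 (by omega)) (hne (s + 1) (by omega) h2)
          (c'.adj_getVert_succ (by omega))).symm
        · rw [← hsup]; exact c'.getVert_mem_support s
        · rw [← hsup]; exact c'.getVert_mem_support (s + 1)
    have hall : ∀ x ∈ c.support, x ≠ w → (P x ↔ P (c'.getVert 1)) := by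
      intro x hx hxw
      rw [← hsup] at hx
      obtain ⟨s, hs, hsl⟩ := SimpleGraph.Walk.mem_support_iff_exists_getVert.1 hx
      have h1 : s ≠ 0 := by
        rintro rfl
        rw [SimpleGraph.Walk.getVert_zero] at hs
        exact hxw hs.symm
      have h2 : s ≠ c'.length := by
        rintro rfl
        rw [SimpleGraph.Walk.getVert_length] at hs
        exact hxw hs.symm
      rw [← hs]
      exact hstep s (by omega) (by omega)
    intro x hx y hy hxw hyw
    rw [hall x hx hxw, hall y hy hyw]
  · have hne : ∀ x ∈ c.support, x ≠ w := fun x hx h => hw (h ▸ hx)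
    have hstep : ∀ s, s ≤ c.length → (P (c.getVert s) ↔ P (c.getVert 0)) := by
      intro s
      induction s with
      | zero => exact fun _ => Iff.rfl
      | succ s ih =>
        intro h2
        rw [← ih (by omega)]
        exact (h _ (c.getVert_mem_support s) _ (c.getVert_mem_support (s + 1))
          (hne _ (c.getVert_mem_support s)) (hne _ (c.getVert_mem_support (s + 1)))
          (c.adj_getVert_succ (by omega))).symm
    have hall : ∀ x ∈ c.support, (P x ↔ P (c.getVert 0)) := by
      intro x hx
      obtain ⟨s, hs, hsl⟩ := SimpleGraph.Walk.mem_support_iff_exists_getVert.1 hx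
      rw [← hs]
      exact hstep s hsl
    intro x hx y hy _ _
    rw [hall x hx, hall y hy]

/-- A cycle with all its vertices in a finite set is not longer than the number of elements. -/
theorem length_le {v : V} (c : H.Walk v v) (hc : c.IsCycle) (f : V → ℕ)
    (hf : Function.Injective f) (a b : ℕ) (h : ∀ x ∈ c.support, a ≤ f x ∧ f x ≤ b) :
    c.length ≤ b + 1 - a := by
  have h3 := hc.three_le_length
  have h1 : (Finset.range c.length).card ≤ (Finset.Icc a b).card := by
    apply Finset.card_le_card_of_injOn (fun s => f (c.getVert s))
    · intro s _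
      simp only [Finset.coe_Icc, Set.mem_Icc]
      exact h _ (c.getVert_mem_support s)
    · intro s hs t ht hst
      simp only [Finset.coe_range, Set.mem_Iio] at hs ht
      exact hc.getVert_injOn' (show s ≤ c.length - 1 by omega) (show t ≤ c.length - 1 by omega)
        (hf hst)
  simpa using h1

/-- A vertex of a cycle has two different neighbours on it. -/
theorem two_nbrs {v : V} (c : H.Walk v v) (hc : c.IsCycle) (w : V) (hw : w ∈ c.support) :
    ∃ x ∈ c.support, ∃ y ∈ c.support, x ≠ y ∧ H.Adj w x ∧ H.Adj w y := by
  classical
  set c' := c.rotate w hw with hc'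
  have hcyc : c'.IsCycle := (SimpleGraph.Walk.isCycle_rotate hw).2 hc
  have hsup : ∀ x, x ∈ c'.support ↔ x ∈ c.support := fun x =>
    SimpleGraph.Walk.mem_support_rotate_iff c w hw
  have h3 := hcyc.three_le_length
  refine ⟨c'.getVert 1, (hsup _).1 (c'.getVert_mem_support 1), c'.getVert (c'.length - 1),
    (hsup _).1 (c'.getVert_mem_support _), ?_, ?_, ?_⟩
  · intro h
    have := hcyc.getVert_injOn (show 1 ≤ 1 ∧ 1 ≤ c'.length by omega)
      (show 1 ≤ c'.length - 1 ∧ c'.length - 1 ≤ c'.length by omega) h
    omega
  · have := c'.adj_getVert_succ (i := 0) (by omega)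
    rwa [SimpleGraph.Walk.getVert_zero] at this
  · have := c'.adj_getVert_succ (i := c'.length - 1) (by omega)
    rw [show c'.length - 1 + 1 = c'.length by omega, SimpleGraph.Walk.getVert_length] at this
    exact this.symm

end cycle

/-- oriented adjacency -/
def adjR (d L x y : ℕ) : Prop :=
  (x < y ∧ y ≤ d * L * d ∧ y ≤ (x / d + 1) * d) ∨
    (x = d * L * d + 1 ∧ ∃ a ≤ d, y = a * (L * d))

theorem anchor_le {d L a : ℕ} (ha : a ≤ d) : a * (L * d) ≤ d * L * d := by
  rw [mul_assoc]
  exact Nat.mul_le_mul_right _ ha

/-- the graph -/
def G (d L : ℕ) : SimpleGraph (Fin (d * L * d + 2)) where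
  Adj x y := adjR d L x.val y.val ∨ adjR d L y.val x.val
  symm := ⟨fun x y h => h.symm⟩
  loopless := ⟨by
    rintro x (h | h) <;> · rcases h with ⟨h1, -⟩ | ⟨h1, a, ha, h2⟩
                           · omega
                           · have := anchor_le (L := L) ha
                             omega⟩

variable {d L : ℕ}

/-- block index of an edge -/
theorem adjR_block (hd : 0 < d) {x y : ℕ} (h : adjR d L x y) (hx : x ≤ d * L * d) :
    x < y ∧ y ≤ d * L * d ∧ ∃ j, j * d ≤ x ∧ x < (j + 1) * d ∧ y ≤ (j + 1) * d := by
  rcases h with ⟨h1, h2, h3⟩ | ⟨h1, -⟩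
  · exact ⟨h1, h2, x / d, Nat.div_mul_le_self x d, Nat.lt_mul_of_div_lt (by omega) hd, h3⟩
  · omega

/-- If the chain is cut in each segment there are only short cycles. -/
theorem no_long (hd : 0 < d) (hL : 0 < L) (H : SimpleGraph (Fin (d * L * d + 2)))
    (hH : H ≤ G d L) (hcut : ∀ a < d, ∃ j, a * L ≤ j ∧ j < (a + 1) * L ∧
      ∀ x y : Fin (d * L * d + 2), y.val = (j + 1) * d → j * d ≤ x.val → x.val < (j + 1) * d →
        ¬ H.Adj x y) {v : Fin (d * L * d + 2)} (c : H.Walk v v) (hc : c.IsCycle) :
    c.length ≤ d + 1 := by
  -- oriented form of the edges of `H`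
  have hlast : ∀ x : Fin (d * L * d + 2), x.val ≤ d * L * d ∨ x.val = d * L * d + 1 := by
    intro x
    have := x.isLt
    omega
  -- the last vertex is not on the cycle
  have hz : ∀ w : Fin (d * L * d + 2), w.val = d * L * d + 1 → w ∉ c.support := by
    intro w hw hws
    obtain ⟨x, hx, y, hy, hxy, hwx, hwy⟩ := two_nbrs c hc w hws
    have hanchor : ∀ x, H.Adj w x → ∃ a ≤ d, x.val = a * (L * d) := by
      intro x hwx
      rcases hH hwx with h | h
      · rcases h with ⟨h1, h2, -⟩ | ⟨-, h2⟩
        · omega
        · exact h2
      · rcases h with ⟨h1, h2, -⟩ | ⟨-, a, ha, h2⟩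
        · omega
        · have := anchor_le (L := L) ha
          omega
    have key : ∀ x ∈ c.support, ∀ y ∈ c.support, ∀ a b, a ≤ d → b ≤ d → x.val = a * (L * d) →
        y.val = b * (L * d) → a < b → False := by
      intro x hx y hy a b ha hb hxa hyb hab
      obtain ⟨j, hj1, hj2, hj⟩ := hcut a (by omega)
      have hab' : (a + 1) * (L * d) ≤ b * (L * d) := Nat.mul_le_mul_right _ hab
      have h1 : a * L * d ≤ j * d := Nat.mul_le_mul_right _ hj1
      have h2 : (j + 1) * d ≤ (a + 1) * L * d := Nat.mul_le_mul_right _ hj2
      have h3 : a * L * d = a * (L * d) := mul_assoc _ _ _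
      have h4 : (a + 1) * L * d = (a + 1) * (L * d) := mul_assoc _ _ _
      have h5 : (j + 1) * d = j * d + d := by ring
      have hsame := cut_same c hc w (fun x => x.val < (j + 1) * d) ?_ x hx y hy ?_ ?_
      · have h6 : x.val < (j + 1) * d := by omega
        have := hsame.1 h6
        omega
      · intro x hx y hy hxw hyw hadj
        have hx' : x.val ≤ d * L * d := by
          rcases hlast x with h | h
          · exact h
          · exact (hxw (Fin.ext (by rw [h, hw]))).elim
        have hy' : y.val ≤ d * L * d := by
          rcases hlast y with h | h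
          · exact h
          · exact (hyw (Fin.ext (by rw [h, hw]))).elim
        have key2 : ∀ x y : Fin (d * L * d + 2), x.val ≤ d * L * d → H.Adj x y →
            adjR d L x.val y.val → x.val < (j + 1) * d → y.val < (j + 1) * d := by
          intro x y hx hxy hR hlt
          by_contra hcon
          obtain ⟨h7, h8, i, hi1, hi2, hi3⟩ := adjR_block hd hR hx
          have h9 : i < j + 1 := by
            by_contra h10
            have := Nat.mul_le_mul_right d (show j + 1 ≤ i by omega)
            omega
          have h10 : j < i + 1 := by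
            by_contra h11
            have := Nat.mul_le_mul_right d (show i + 1 ≤ j by omega)
            omega
          have h11 : i = j := by omega
          rw [h11] at hi1 hi2 hi3
          exact hj x y (by omega) hi1 hi2 hxy
        rcases hH hadj with h | h
        · constructor
          · exact key2 x y hx' hadj h
          · have := (adjR_block hd h hx').1
            omega
        · constructor
          · have := (adjR_block hd h hy').1
            omega
          · exact key2 y x hy' hadj.symm h
      · intro h
        rw [h, hw] at hxa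
        have := anchor_le (L := L) ha
        omega
      · intro h
        rw [h, hw] at hyb
        have := anchor_le (L := L) hb
        omega
    obtain ⟨a, ha, hxa⟩ := hanchor x hwx
    obtain ⟨b, hb, hyb⟩ := hanchor y hwy
    rcases lt_trichotomy a b with h | h | h
    · exact key x hx y hy a b ha hb hxa hyb h
    · apply hxy
      apply Fin.ext
      rw [hxa, hyb, h]
    · exact key y hy x hx b a hb ha hyb hxa h
  have hle : ∀ x ∈ c.support, x.val ≤ d * L * d := by
    intro x hx
    rcases hlast x with h | h
    · exact h
    · exact (hz x h hx).elim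
  -- smallest vertex of the cycle
  obtain ⟨x, hx, hmin⟩ := Finset.exists_min_image c.support.toFinset (fun x => x.val)
    ⟨v, by rw [List.mem_toFinset]; exact c.start_mem_support⟩
  simp only [List.mem_toFinset] at hx hmin
  set j := x.val / d with hj
  have h1 : j * d ≤ x.val := Nat.div_mul_le_self _ _
  have h2 : x.val < (j + 1) * d := Nat.lt_mul_of_div_lt (by omega) hd
  have h5 : (j + 1) * d = j * d + d := by ring
  have hub : ∀ y ∈ c.support, y.val ≤ (j + 1) * d := by
    intro y hy
    by_contra hcon
    push Not at hcon
    have hyle := hle y hy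
    set w : Fin (d * L * d + 2) := ⟨(j + 1) * d, by omega⟩ with hw
    have hsame := cut_same c hc w (fun x => x.val < (j + 1) * d) ?_ x hx y hy ?_ ?_
    · have := hsame.1 h2
      omega
    · intro x' hx' y' hy' hxw hyw hadj
      have key3 : ∀ x y : Fin (d * L * d + 2), x.val ≤ d * L * d → y ≠ w →
          adjR d L x.val y.val → x.val < (j + 1) * d → y.val < (j + 1) * d := by
        intro x y hx hyw hR hlt
        obtain ⟨h7, h8, i, hi1, hi2, hi3⟩ := adjR_block hd hR hx
        have hne : y.val ≠ (j + 1) * d := fun h => hyw (Fin.ext h)
        have h9 : i < j + 1 := by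
          by_contra h10
          have := Nat.mul_le_mul_right d (show j + 1 ≤ i by omega)
          omega
        have := Nat.mul_le_mul_right d (show i + 1 ≤ j + 1 by omega)
        omega
      rcases hH hadj with h | h
      · constructor
        · exact key3 x' y' (hle _ hx') hyw h
        · have := (adjR_block hd h (hle _ hx')).1
          omega
      · constructor
        · have := (adjR_block hd h (hle _ hy')).1
          omega
        · exact key3 y' x' (hle _ hy') hxw h
    · intro h
      have := congrArg Fin.val h
      simp only [hw] at this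
      omega
    · intro h
      have := congrArg Fin.val h
      simp only [hw] at this
      omega
  have := length_le c hc Fin.val Fin.val_injective (j * d) ((j + 1) * d) (fun y hy =>
    ⟨le_trans h1 (hmin y hy), hub y hy⟩)
  omega

end Pool.Agent.X62.LC
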