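import Pool.Agent.X62.LC.Chain

/-!
# The number of edges of the graph, and the stars
-/

open Finset

namespace Pool.Agent.X62.LC

variable {d L : ℕ}

theorem vtx_lt {j u : ℕ} (hj : j < d * L) (hu : u ≤ d) : j * d + u < d * L * d + 2 := by
  have := Nat.mul_le_mul_right d (show j + 1 ≤ d * L by omega)
  have h2 : (j + 1) * d = j * d + d := by ring
  omega

theorem anchor_lt {a : ℕ} (ha : a < d + 1) : a * (L * d) < d * L * d + 2 := by
  have := anchor_le (L := L) (show a ≤ d by omega)
  omega

/-- vertex of the chain -/
def vx (j : Fin (d * L)) (u : Fin (d + 1)) : Fin (d * L * d + 2) :=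
  ⟨j.val * d + u.val, vtx_lt j.isLt (by omega)⟩

/-- anchor -/
def an (a : Fin (d + 1)) : Fin (d * L * d + 2) := ⟨a.val * (L * d), anchor_lt a.isLt⟩

/-- the last vertex -/
def zz : Fin (d * L * d + 2) := ⟨d * L * d + 1, by omega⟩

theorem vx_adj (hd : 0 < d) (j : Fin (d * L)) {u v : Fin (d + 1)} (h : u < v) :
    adjR d L (vx j u).val (vx j v).val := by
  left
  have h1 := vtx_lt (d := d) (L := L) j.isLt (show v.val ≤ d by omega)
  have huv : u.val < v.val := h
  have h2 := Nat.mul_le_mul_right d (show j.val + 1 ≤ d * L from j.isLt)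
  have h3 : (j.val + 1) * d = j.val * d + d := by ring
  refine ⟨?_, ?_, ?_⟩
  · simp only [vx]; omega
  · simp only [vx]; omega
  · have h4 : (vx j u).val / d = j.val := by
      simp only [vx]
      rw [mul_comm, Nat.mul_add_div hd, Nat.div_eq_of_lt (by omega), add_zero]
    rw [h4, h3]
    simp only [vx]
    omega

theorem card_edges (hd : 0 < d) (hL : 0 < L) [DecidableRel (G d L).Adj] :
    (d + 1) * (d * L * d + 2) ≤ 2 * (G d L).edgeFinset.card := by
  classical
  rw [SimpleGraph.two_mul_card_edgeFinset]
  set I := (univ : Finset (Fin (d * L))) ×ˢ (univ : Finset (Fin (d + 1))).offDiag with hI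
  set S1 : Finset (Fin (d * L * d + 2) × Fin (d * L * d + 2)) :=
    I.image (fun x => (vx x.1 x.2.1, vx x.1 x.2.2)) with hS1
  set S2 : Finset (Fin (d * L * d + 2) × Fin (d * L * d + 2)) :=
    (univ : Finset (Fin (d + 1))).image (fun a => (zz, an a)) with hS2
  set S3 : Finset (Fin (d * L * d + 2) × Fin (d * L * d + 2)) :=
    (univ : Finset (Fin (d + 1))).image (fun a => (an a, zz)) with hS3
  have hvz : ∀ (j : Fin (d * L)) (u : Fin (d + 1)), vx j u ≠ zz := by
    intro j u h
    have h1 := congrArg Fin.val h
    simp only [vx, zz] at h1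
    have h2 := Nat.mul_le_mul_right d (show j.val + 1 ≤ d * L from j.isLt)
    have h3 : (j.val + 1) * d = j.val * d + d := by ring
    omega
  have haz : ∀ a : Fin (d + 1), (an a : Fin (d * L * d + 2)) ≠ zz := by
    intro a h
    have h1 := congrArg Fin.val h
    simp only [an, zz] at h1
    have := anchor_le (L := L) (show a.val ≤ d by omega)
    omega
  have hc1 : S1.card = d * L * ((d + 1) * d) := by
    rw [hS1, Finset.card_image_of_injOn]
    · rw [hI, Finset.card_product, Finset.offDiag_card]
      simp only [card_univ, Fintype.card_fin]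
      congr 1
      rw [Nat.sub_eq_iff_eq_add (by nlinarith)]
      ring
    · rintro ⟨j, u, v⟩ hx ⟨j', u', v'⟩ hy h
      simp only [hI, coe_product, Set.mem_prod, mem_coe, mem_univ, true_and, mem_offDiag] at hx hy
      simp only [Prod.mk.injEq] at h
      obtain ⟨h1, h2⟩ := h
      have h1' := congrArg Fin.val h1
      have h2' := congrArg Fin.val h2
      simp only [vx] at h1' h2'
      have hu := u.isLt
      have hv := v.isLt
      have hu' := u'.isLt
      have hv' := v'.isLt
      have hne : u.val ≠ v.val := fun h => hx (Fin.ext h)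
      have hne' : u'.val ≠ v'.val := fun h => hy (Fin.ext h)
      have hj : j.val = j'.val := by
        rcases lt_trichotomy j.val j'.val with h | h | h
        · have h3 := Nat.mul_le_mul_right d (show j.val + 1 ≤ j'.val from h)
          have h4 : (j.val + 1) * d = j.val * d + d := by ring
          omega
        · exact h
        · have h3 := Nat.mul_le_mul_right d (show j'.val + 1 ≤ j.val from h)
          have h4 : (j'.val + 1) * d = j'.val * d + d := by ring
          omega
      rw [hj] at h1' h2'
      simp only [Prod.mk.injEq]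
      exact ⟨Fin.ext hj, Fin.ext (by omega), Fin.ext (by omega)⟩
  have hani : ∀ a b : Fin (d + 1), (an a : Fin (d * L * d + 2)) = an b → a = b := by
    intro a b h
    have h1 := congrArg Fin.val h
    simp only [an] at h1
    exact Fin.ext (Nat.eq_of_mul_eq_mul_right (Nat.mul_pos hL hd) h1)
  have hc2 : S2.card = d + 1 := by
    rw [hS2, Finset.card_image_of_injective]
    · simp
    · intro a b h
      simp only [Prod.mk.injEq, true_and] at h
      exact hani a b h
  have hc3 : S3.card = d + 1 := by
    rw [hS3, Finset.card_image_of_injective]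
    · simp
    · intro a b h
      simp only [Prod.mk.injEq, and_true] at h
      exact hani a b h
  have hd12 : Disjoint S1 S2 := by
    rw [Finset.disjoint_left]
    intro x hx hy
    simp only [hS1, hS2, mem_image] at hx hy
    obtain ⟨a, -, rfl⟩ := hx
    obtain ⟨b, -, h⟩ := hy
    simp only [Prod.mk.injEq] at h
    exact hvz _ _ h.1.symm
  have hd123 : Disjoint (S1 ∪ S2) S3 := by
    rw [Finset.disjoint_left]
    intro x hx hy
    simp only [hS3, mem_image] at hy
    obtain ⟨b, -, rfl⟩ := hy
    rw [mem_union] at hx
    rcases hx with hx | hx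
    · simp only [hS1, mem_image] at hx
      obtain ⟨a, -, h⟩ := hx
      simp only [Prod.mk.injEq] at h
      exact hvz _ _ h.2
    · simp only [hS2, mem_image] at hx
      obtain ⟨a, -, h⟩ := hx
      simp only [Prod.mk.injEq] at h
      exact haz _ h.2
  have hcard : (S1 ∪ S2 ∪ S3).card = (d + 1) * (d * L * d + 2) := by
    rw [Finset.card_union_of_disjoint hd123, Finset.card_union_of_disjoint hd12, hc1, hc2, hc3]
    ring
  rw [← hcard]
  apply Finset.card_le_card
  intro x hx
  simp only [mem_union] at hx
  simp only [mem_filter, mem_univ, true_and]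
  rcases hx with (hx | hx) | hx
  · simp only [hS1, mem_image] at hx
    obtain ⟨⟨j, u, v⟩, h1, rfl⟩ := hx
    simp only [hI, mem_product, mem_univ, true_and, mem_offDiag] at h1
    rcases lt_or_gt_of_ne h1 with h | h
    · exact Or.inl (vx_adj hd j h)
    · exact Or.inr (vx_adj hd j h)
  · simp only [hS2, mem_image] at hx
    obtain ⟨a, -, rfl⟩ := hx
    exact Or.inl (Or.inr ⟨rfl, a.val, by omega, rfl⟩)
  · simp only [hS3, mem_image] at hx
    obtain ⟨a, -, rfl⟩ := hx
    exact Or.inr (Or.inr ⟨rfl, a.val, by omega, rfl⟩)

/-- the edges from the last vertex of the `j`-th complete graph to its other vertices -/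
def star (j : Fin (d * L)) : Finset (Sym2 (Fin (d * L * d + 2))) :=
  (univ : Finset (Fin d)).image fun u => s(vx j (Fin.last d), vx j u.castSucc)

theorem star_card (j : Fin (d * L)) : (star j).card = d := by
  unfold star
  rw [Finset.card_image_of_injective]
  · simp
  · intro u v h
    simp only [Sym2.eq_iff] at h
    rcases h with ⟨-, h⟩ | ⟨h1, h2⟩
    · have := congrArg Fin.val h
      simp only [vx, Fin.val_castSucc] at this
      exact Fin.ext (by omega)
    · have := congrArg Fin.val h1
      simp only [vx, Fin.val_castSucc, Fin.val_last] at this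
      omega

theorem star_disjoint (i j : Fin (d * L)) (hij : i ≠ j) : Disjoint (star i) (star j) := by
  rw [Finset.disjoint_left]
  intro e he he'
  simp only [star, mem_image, mem_univ, true_and] at he he'
  obtain ⟨u, rfl⟩ := he
  obtain ⟨v, h⟩ := he'
  have hne : i.val ≠ j.val := fun h => hij (Fin.ext h)
  have hu := u.isLt
  have hv := v.isLt
  have key : j.val < i.val ∨ i.val < j.val := by omega
  have h1 : i.val < j.val → i.val * d + d ≤ j.val * d := by
    intro h
    have := Nat.mul_le_mul_right d (show i.val + 1 ≤ j.val from h)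
    rwa [add_mul, one_mul] at this
  have h2 : j.val < i.val → j.val * d + d ≤ i.val * d := by
    intro h
    have := Nat.mul_le_mul_right d (show j.val + 1 ≤ i.val from h)
    rwa [add_mul, one_mul] at this
  simp only [Sym2.eq_iff] at h
  rcases h with ⟨h3, -⟩ | ⟨h3, h4⟩
  · have := congrArg Fin.val h3
    simp only [vx, Fin.val_last] at this
    omega
  · have h3' := congrArg Fin.val h3
    have h4' := congrArg Fin.val h4
    simp only [vx, Fin.val_last, Fin.val_castSucc] at h3' h4'
    omega

theorem star_subset (hd : 0 < d) (j : Fin (d * L)) [Fintype (G d L).edgeSet] :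
    star j ⊆ (G d L).edgeFinset := by
  intro e he
  simp only [star, mem_image, mem_univ, true_and] at he
  obtain ⟨u, rfl⟩ := he
  rw [SimpleGraph.mem_edgeFinset, SimpleGraph.mem_edgeSet]
  exact Or.inr (vx_adj hd j (Fin.castSucc_lt_last u))

/-- segments of the chain -/
def seg (a : Fin d) : Finset (Fin (d * L)) :=
  (univ : Finset (Fin L)).image fun l => ⟨a.val * L + l.val, by
    have := Nat.mul_le_mul_right L (show a.val + 1 ≤ d from a.isLt)
    have h2 : (a.val + 1) * L = a.val * L + L := by ring
    omega⟩

theorem seg_card (a : Fin d) : (seg (L := L) a).card = L := by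
  unfold seg
  rw [Finset.card_image_of_injective]
  · simp
  · intro u v h
    have := congrArg Fin.val h
    simp only at this
    exact Fin.ext (by omega)

theorem mem_seg {a : Fin d} {j : Fin (d * L)} (h : j ∈ seg a) :
    a.val * L ≤ j.val ∧ j.val < (a.val + 1) * L := by
  simp only [seg, mem_image, mem_univ, true_and] at h
  obtain ⟨l, rfl⟩ := h
  have h2 : (a.val + 1) * L = a.val * L + L := by ring
  constructor
  · simp only; omega
  · simp only
    omega

/-- A random set of edges gives a long cycle with small probability. -/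
theorem prob_bound (hd : 0 < d) (hL : 0 < L) [Fintype (G d L).edgeSet]
    (p : ℝ) (hp0 : 0 ≤ p) (hp1 : p ≤ 1) (P : Finset (Sym2 (Fin (d * L * d + 2))) → Prop)
    [DecidablePred P]
    (hP : ∀ S, P S → ∃ (v : Fin (d * L * d + 2))
      (c : (SimpleGraph.fromEdgeSet (S : Set (Sym2 (Fin (d * L * d + 2))))).Walk v v),
      c.IsCycle ∧ d + 2 ≤ c.length) :
    ∑ S ∈ (G d L).edgeFinset.powerset.filter P,
      p ^ S.card * (1 - p) ^ ((G d L).edgeFinset.card - S.card) ≤ d * (1 - (1 - p) ^ d) ^ L := by
  classical
  have := prob_le (G d L).edgeFinset (univ : Finset (Fin d)) (fun a => seg (L := L) a) star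
    (fun _ _ j _ => star_subset hd j) star_disjoint d L (fun _ _ j _ => star_card j)
    (fun a _ => seg_card a) p hp0 hp1 P (by
      intro S hS hPS
      by_contra hcon
      push Not at hcon
      obtain ⟨v, c, hc, hlen⟩ := hP S hPS
      have hle : SimpleGraph.fromEdgeSet (S : Set (Sym2 (Fin (d * L * d + 2)))) ≤ G d L := by
        intro x y hxy
        rw [SimpleGraph.fromEdgeSet_adj] at hxy
        have h1 := hS (Finset.mem_coe.1 hxy.1)
        rwa [SimpleGraph.mem_edgeFinset, SimpleGraph.mem_edgeSet] at h1
      have := no_long hd hL _ hle (by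
        intro a ha
        obtain ⟨j, hj, hdis⟩ := hcon ⟨a, ha⟩ (mem_univ _)
        obtain ⟨h1, h2⟩ := mem_seg hj
        refine ⟨j.val, h1, h2, ?_⟩
        intro x y hy hx1 hx2 hadj
        rw [SimpleGraph.fromEdgeSet_adj] at hadj
        have h3 : s(x, y) ∈ star j := by
          simp only [star, mem_image, mem_univ, true_and]
          have h4 : (j.val + 1) * d = j.val * d + d := by ring
          refine ⟨⟨x.val - j.val * d, by omega⟩, ?_⟩
          rw [Sym2.eq_swap]
          congr 2
          · apply Fin.ext
            simp only [vx, Fin.val_castSucc]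
            omega
          · apply Fin.ext
            simp only [vx, Fin.val_last]
            omega
        exact (Finset.disjoint_left.1 hdis) (Finset.mem_coe.1 hadj.1) h3) c hc
      omega)
  simpa using this

end Pool.Agent.X62.LC
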