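import Mathlib

/-!
# The probability that a random subset meets several disjoint sets
-/

open Finset

namespace Pool.Agent.X62.LC

variable {ι κ : Type} [DecidableEq ι] [DecidableEq κ]

theorem sum_avoid (E U : Finset ι) (hU : U ⊆ E) (p : ℝ) :
    ∑ S ∈ E.powerset, (p ^ S.card * (1 - p) ^ (E.card - S.card)) *
      (if Disjoint S U then 1 else 0) = (1 - p) ^ U.card := by
  have h1 : E.powerset.filter (fun S => Disjoint S U) = (E \ U).powerset := by
    ext S
    simp only [mem_filter, mem_powerset]
    rw [Finset.subset_sdiff]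
  have h2 : ∑ S ∈ E.powerset, (p ^ S.card * (1 - p) ^ (E.card - S.card)) *
      (if Disjoint S U then 1 else 0) =
      ∑ S ∈ (E \ U).powerset, p ^ S.card * (1 - p) ^ (E.card - S.card) := by
    rw [← h1, Finset.sum_filter]
    apply Finset.sum_congr rfl
    intro S _
    split_ifs <;> simp
  rw [h2]
  have h3 : ∀ S ∈ (E \ U).powerset, p ^ S.card * (1 - p) ^ (E.card - S.card) =
      (1 - p) ^ U.card * (p ^ S.card * (1 - p) ^ ((E \ U).card - S.card)) := by
    intro S hS
    have h4 := Finset.card_le_card (mem_powerset.1 hS)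
    have h5 : (E \ U).card + U.card = E.card := Finset.card_sdiff_add_card_eq_card hU
    have h6 : E.card - S.card = U.card + ((E \ U).card - S.card) := by omega
    rw [h6, pow_add]
    ring
  rw [Finset.sum_congr rfl h3, ← Finset.mul_sum, Finset.sum_pow_mul_eq_add_pow]
  simp

theorem sum_hit (E : Finset ι) (J : Finset κ) (D : κ → Finset ι) (hD : ∀ j ∈ J, D j ⊆ E)
    (hdis : ∀ i ∈ J, ∀ j ∈ J, i ≠ j → Disjoint (D i) (D j)) (d : ℕ)
    (hcard : ∀ j ∈ J, (D j).card = d) (p : ℝ) :
    ∑ S ∈ E.powerset, (p ^ S.card * (1 - p) ^ (E.card - S.card)) *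
      (∏ j ∈ J, (1 - if Disjoint S (D j) then (1 : ℝ) else 0)) = (1 - (1 - p) ^ d) ^ J.card := by
  have h1 : ∀ S : Finset ι, ∏ j ∈ J, (1 - if Disjoint S (D j) then (1 : ℝ) else 0) =
      ∑ T ∈ J.powerset, (-1) ^ T.card * (if Disjoint S (T.biUnion D) then (1 : ℝ) else 0) := by
    intro S
    have h2 : ∀ j ∈ J, (1 - if Disjoint S (D j) then (1 : ℝ) else 0) =
        (-if Disjoint S (D j) then (1 : ℝ) else 0) + 1 := fun j _ => by ring
    rw [Finset.prod_congr rfl h2, Finset.prod_add]
    apply Finset.sum_congr rfl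
    intro T hT
    rw [Finset.prod_const_one, mul_one, Finset.prod_neg]
    congr 1
    split_ifs with h
    · apply Finset.prod_eq_one
      intro j hj
      rw [if_pos]
      rw [Finset.disjoint_biUnion_right] at h
      exact h j hj
    · rw [Finset.disjoint_biUnion_right] at h
      push Not at h
      obtain ⟨j, hj, hj'⟩ := h
      exact Finset.prod_eq_zero hj (by rw [if_neg hj'])
  simp_rw [h1, Finset.mul_sum]
  rw [Finset.sum_comm]
  have h3 : ∀ T ∈ J.powerset, ∑ S ∈ E.powerset, (p ^ S.card * (1 - p) ^ (E.card - S.card)) *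
      ((-1) ^ T.card * (if Disjoint S (T.biUnion D) then (1 : ℝ) else 0)) =
      (-(1 - p) ^ d) ^ T.card := by
    intro T hT
    have hTJ := mem_powerset.1 hT
    have h4 := sum_avoid E (T.biUnion D) (by
      rw [Finset.biUnion_subset]
      exact fun j hj => hD j (hTJ hj)) p
    have h5 : (T.biUnion D).card = T.card * d := by
      rw [Finset.card_biUnion]
      · rw [Finset.sum_congr rfl fun j hj => hcard j (hTJ hj)]
        simp
      · intro i hi j hj hij
        exact hdis i (hTJ hi) j (hTJ hj) hij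
    rw [h5] at h4
    calc ∑ S ∈ E.powerset, (p ^ S.card * (1 - p) ^ (E.card - S.card)) *
          ((-1) ^ T.card * (if Disjoint S (T.biUnion D) then (1 : ℝ) else 0))
        = (-1) ^ T.card * ∑ S ∈ E.powerset, (p ^ S.card * (1 - p) ^ (E.card - S.card)) *
          (if Disjoint S (T.biUnion D) then (1 : ℝ) else 0) := by
            rw [Finset.mul_sum]
            apply Finset.sum_congr rfl
            intro S _
            ring
      _ = (-(1 - p) ^ d) ^ T.card := by
            rw [h4, neg_pow ((1 - p) ^ d), ← pow_mul, mul_comm d]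
  rw [Finset.sum_congr rfl h3]
  have h6 := Finset.sum_pow_mul_eq_add_pow (-(1 - p) ^ d) 1 J
  simp only [one_pow, mul_one] at h6
  rw [h6]
  ring

/-- Union bound: if an event implies that for some `a ∈ A` the random set meets all `D a j`. -/
theorem prob_le (E : Finset ι) {α : Type} [DecidableEq α] (A : Finset α) (J : α → Finset κ)
    (D : κ → Finset ι) (hD : ∀ a ∈ A, ∀ j ∈ J a, D j ⊆ E)
    (hdis : ∀ i j, i ≠ j → Disjoint (D i) (D j)) (d L : ℕ)
    (hcard : ∀ a ∈ A, ∀ j ∈ J a, (D j).card = d) (hL : ∀ a ∈ A, (J a).card = L) (p : ℝ)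
    (hp0 : 0 ≤ p) (hp1 : p ≤ 1) (P : Finset ι → Prop) [DecidablePred P]
    (hP : ∀ S ⊆ E, P S → ∃ a ∈ A, ∀ j ∈ J a, ¬ Disjoint S (D j)) :
    ∑ S ∈ E.powerset.filter P, p ^ S.card * (1 - p) ^ (E.card - S.card) ≤
      A.card * (1 - (1 - p) ^ d) ^ L := by
  have hw : ∀ S : Finset ι, 0 ≤ p ^ S.card * (1 - p) ^ (E.card - S.card) := by
    intro S
    have : 0 ≤ 1 - p := by linarith
    positivity
  have hf : ∀ (S : Finset ι) (a : α), 0 ≤ ∏ j ∈ J a, (1 - if Disjoint S (D j) then (1 : ℝ) else 0) := by
    intro S a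
    apply Finset.prod_nonneg
    intro j _
    split_ifs <;> norm_num
  calc ∑ S ∈ E.powerset.filter P, p ^ S.card * (1 - p) ^ (E.card - S.card)
      ≤ ∑ S ∈ E.powerset, (p ^ S.card * (1 - p) ^ (E.card - S.card)) *
        ∑ a ∈ A, ∏ j ∈ J a, (1 - if Disjoint S (D j) then (1 : ℝ) else 0) := by
          rw [Finset.sum_filter]
          apply Finset.sum_le_sum
          intro S hS
          split_ifs with h
          · obtain ⟨a, ha, h1⟩ := hP S (mem_powerset.1 hS) h
            have h2 : (1 : ℝ) ≤ ∑ a ∈ A, ∏ j ∈ J a,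
                (1 - if Disjoint S (D j) then (1 : ℝ) else 0) := by
              calc (1 : ℝ) = ∏ j ∈ J a, (1 - if Disjoint S (D j) then (1 : ℝ) else 0) := by
                    symm
                    apply Finset.prod_eq_one
                    intro j hj
                    rw [if_neg (h1 j hj), sub_zero]
                _ ≤ _ := Finset.single_le_sum (f := fun a => ∏ j ∈ J a,
                    (1 - if Disjoint S (D j) then (1 : ℝ) else 0)) (fun a _ => hf S a) ha
            exact le_mul_of_one_le_right (hw S) h2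
          · exact mul_nonneg (hw S) (Finset.sum_nonneg fun a _ => hf S a)
    _ = ∑ a ∈ A, ∑ S ∈ E.powerset, (p ^ S.card * (1 - p) ^ (E.card - S.card)) *
        ∏ j ∈ J a, (1 - if Disjoint S (D j) then (1 : ℝ) else 0) := by
          rw [Finset.sum_comm]
          apply Finset.sum_congr rfl
          intro S _
          rw [Finset.mul_sum]
    _ = ∑ a ∈ A, (1 - (1 - p) ^ d) ^ L := by
          apply Finset.sum_congr rfl
          intro a ha
          rw [sum_hit E (J a) D (hD a ha) (fun i _ j _ h => hdis i j h) d (hcard a ha) p, hL a ha]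
    _ = _ := by rw [Finset.sum_const, nsmul_eq_mul]

end Pool.Agent.X62.LC
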